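import Pool.Agent.Q120.FE.Stm

/-!
# Project FE of helper120: job ENTF
-/

set_option autoImplicit false

namespace Pool.Agent.Q75.FE

open Finset MeasureTheory Filter Pool.Agent.Q120.ET Pool.Agent.Q120.GM Pool.Agent.Q120.TT
  Pool.Agent.Q120.FZ Pool.Agent.Q120.FE
open scoped Topology

theorem part_congr (hD : J_DEPB) {i : ℕ} {S S' : Set ℕ}
    (hSS : ∀ p : ℕ, p.Prime → p < 2 ^ (i + 1) → (p ∈ S ↔ p ∈ S')) (w : ℕ → ℝ) (h : Finset ℕ) (x : ℕ) :
    part w S h x i = part w S' h x i := by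
  unfold part
  refine sum_congr rfl (fun n hn => ?_)
  have h1 : bi h n = i := (mem_filter.1 hn).2
  rw [hD.1 S S' h n i h1.le hSS]

theorem badF_congr (hD : J_DEPB) {Fam : ℕ → Finset ((ℕ → ℝ) × Finset ℕ)} {N : ℕ} {e : ℝ} {i : ℕ}
    {S S' : Set ℕ} (hSS : ∀ p : ℕ, p.Prime → p < 2 ^ (i + 1) → (p ∈ S ↔ p ∈ S')) :
    BadF Fam N e i S ↔ BadF Fam N e i S' := by
  unfold BadF
  simp_rw [part_congr hD hSS]

theorem prodOn_half_pos (B T : Finset ℕ) : 0 < prodOn half B T := by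
  unfold prodOn half
  refine mul_pos (prod_pos fun _ _ => by norm_num) (prod_pos fun _ _ => by norm_num)

theorem measurableSet_tr {Ω : Type*} [MeasurableSpace Ω] {A : Ω → Set ℕ} (hA : IsRandomSet A)
    (B : Finset ℕ) (F : Finset ℕ → Prop) : MeasurableSet {ω | F (tr A B ω)} := by
  classical
  have h1 : {ω | F (tr A B ω)} = ⋃ T ∈ B.powerset.filter F, {ω | tr A B ω = T} := by
    ext ω
    simp only [Set.mem_ofPred_eq, Set.mem_iUnion, exists_prop, mem_filter, mem_powerset]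
    constructor
    · intro h
      refine ⟨_, ⟨fun n hn => (mem_tr.1 hn).1, h⟩, rfl⟩
    · rintro ⟨T, ⟨_, h⟩, h2⟩
      rw [h2]; exact h
  rw [h1]
  refine Finset.measurableSet_biUnion _ (fun T hT => ?_)
  rw [← law_set_eq A (mem_powerset.1 (mem_filter.1 hT).1)]
  exact measurableSet_law hA B T

theorem t_ENTF : J_ENTF := by
  classical
  intro hE hD Fam N e c hc Ω _ μ _ A hA i hi
  have hset : {ω | BadF Fam N e i (A ω)} =
      {ω | BadF Fam N e i ((tr A (pl (i + 1)) ω : Finset ℕ) : Set ℕ)} := by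
    ext ω
    refine badF_congr hD (fun p hp hp2 => ?_)
    rw [mem_coe, mem_tr]
    constructor
    · intro h
      exact ⟨mem_filter.2 ⟨mem_range.2 hp2, hp⟩, h⟩
    · intro h
      exact h.2
  rw [hset]
  refine ⟨measurableSet_tr hA (pl (i + 1)) (fun T => BadF Fam N e i (T : Set ℕ)), fun hP => ?_⟩
  have hlaw : IsLaw half (pl (i + 1)) (lawOn μ A (pl (i + 1))) :=
    ⟨fun T _ => measureReal_nonneg, sum_law hA _, fun T _ h0 => absurd h0 (prodOn_half_pos _ _).ne'⟩
  have hi0 : (0 : ℝ) < i := by exact_mod_cast hi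
  have hu : 0 < c * (2 ^ i / (i : ℝ)) := by positivity
  have h1 := hE half (pl (i + 1)) (fun n _ => by unfold half; norm_num) (lawOn μ A (pl (i + 1))) hlaw
    (fun T => BadF Fam N e i (T : Set ℕ)) (c * (2 ^ i / (i : ℝ))) hu hP
  rw [real_event (μ := μ) hA (pl (i + 1)) (fun T => BadF Fam N e i (T : Set ℕ))]
  exact h1

end Pool.Agent.Q75.FE
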