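import Pool.Agent.Q120.FE.Stm

/-!
# Project FE of helper120: job BADF
-/

set_option autoImplicit false

namespace Pool.Agent.Q75.FE

open Finset MeasureTheory Filter Pool.Agent.Q120.ET Pool.Agent.Q120.GM Pool.Agent.Q120.TT
  Pool.Agent.Q120.FZ Pool.Agent.Q120.FE
open scoped Topology

open Classical in
/-- Union bound over a double family. -/
theorem union_bound {α β γ : Type*} (P : Finset α) (X : Finset β) (Q : β → Finset γ) (f : α → ℝ)
    (hf : ∀ T ∈ P, 0 ≤ f T) (Bad : α → Prop) (C : β → γ → α → Prop)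
    (h : ∀ T ∈ P, Bad T → ∃ x ∈ X, ∃ q ∈ Q x, C x q T) :
    ∑ T ∈ P with Bad T, f T ≤ ∑ x ∈ X, ∑ q ∈ Q x, ∑ T ∈ P with C x q T, f T := by
  have h1 : ∑ x ∈ X, ∑ q ∈ Q x, ∑ T ∈ P with C x q T, f T =
      ∑ T ∈ P, ∑ x ∈ X, ∑ q ∈ Q x, if C x q T then f T else 0 := by
    simp_rw [sum_filter]
    calc ∑ x ∈ X, ∑ q ∈ Q x, ∑ T ∈ P, (if C x q T then f T else 0) =
        ∑ x ∈ X, ∑ T ∈ P, ∑ q ∈ Q x, (if C x q T then f T else 0) :=
          sum_congr rfl (fun x _ => sum_comm)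
      _ = _ := sum_comm
  rw [h1, sum_filter]
  refine sum_le_sum (fun T hT => ?_)
  have h0 : ∀ x q, 0 ≤ if C x q T then f T else 0 := fun x q => by
    split_ifs
    · exact hf T hT
    · exact le_rfl
  split_ifs with hb
  · obtain ⟨x, hx, q, hq, hc⟩ := h T hT hb
    have h2 : f T = if C x q T then f T else 0 := by rw [if_pos hc]
    calc f T = if C x q T then f T else 0 := h2
      _ ≤ ∑ q ∈ Q x, if C x q T then f T else 0 :=
        single_le_sum (f := fun q => if C x q T then f T else 0) (fun q _ => h0 x q) hq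
      _ ≤ _ := single_le_sum (f := fun x => ∑ q ∈ Q x, if C x q T then f T else 0)
        (fun x _ => sum_nonneg (fun q _ => h0 x q)) hx
  · exact sum_nonneg (fun x _ => sum_nonneg (fun q _ => h0 x q))

theorem ev_aux (N : ℕ) (K c : ℝ) (hK : 0 ≤ K) (hc : 0 < c) : ∀ᶠ i : ℕ in atTop,
    K * (((N : ℝ) * i + 2) * i) ≤ c * 2 ^ i ∧
    ((N : ℝ) * i + 2 + (2 : ℝ) ^ ((i : ℝ) / 4)) * i ≤ c * 2 ^ i := by
  obtain ⟨b, hb⟩ : ∃ b : ℝ, b = (2 : ℝ) ^ ((1 : ℝ) / 4) := ⟨_, rfl⟩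
  have hb1 : 1 < b := by
    rw [hb]; exact Real.one_lt_rpow (by norm_num) (by norm_num)
  have hb4 : b ^ 4 = 2 := by
    rw [hb, ← Real.rpow_natCast, ← Real.rpow_mul (by norm_num)]; norm_num
  have hbi : ∀ i : ℕ, (2 : ℝ) ^ ((i : ℝ) / 4) = b ^ i := by
    intro i
    rw [hb, ← Real.rpow_natCast, ← Real.rpow_mul (by norm_num)]
    congr 1; ring
  have e1 : ∀ᶠ i : ℕ in atTop, (i : ℝ) ^ 1 / b ^ i ≤ 1 :=
    ((tendsto_pow_const_div_const_pow_of_one_lt 1 hb1).eventually_lt_const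
      (show (0 : ℝ) < 1 by norm_num)).mono fun _ h => h.le
  have e2 : ∀ᶠ i : ℕ in atTop, (i : ℝ) ^ 2 / b ^ i ≤ 1 :=
    ((tendsto_pow_const_div_const_pow_of_one_lt 2 hb1).eventually_lt_const
      (show (0 : ℝ) < 1 by norm_num)).mono fun _ h => h.le
  have e3 : ∀ᶠ i : ℕ in atTop, ((K + 1) * (N + 3)) / c ≤ b ^ i :=
    (tendsto_pow_atTop_atTop_of_one_lt hb1).eventually_ge_atTop _
  filter_upwards [e1, e2, e3] with i h1 h2 h3
  have hbpos : 0 < b ^ i := pow_pos (by linarith) i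
  have hbone : 1 ≤ b ^ i := one_le_pow₀ hb1.le
  rw [div_le_one hbpos] at h1 h2
  rw [pow_one] at h1
  rw [div_le_iff₀ hc] at h3
  have h2i : (2 : ℝ) ^ i = (b ^ i) ^ 4 := by
    rw [← hb4, ← pow_mul, ← pow_mul, mul_comm]
  rw [hbi, h2i]
  obtain ⟨B, hB⟩ : ∃ B : ℝ, B = b ^ i := ⟨_, rfl⟩
  rw [← hB] at h1 h2 h3 hbpos hbone ⊢
  have hi0 : (0 : ℝ) ≤ i := Nat.cast_nonneg i
  have hN0 : (0 : ℝ) ≤ N := Nat.cast_nonneg N
  have hmain : ((N : ℝ) + 3) * B ^ 2 * (K + 1) ≤ c * B ^ 4 := by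
    have h5 : ((K + 1) * (N + 3)) ≤ c * B := by linarith
    have h6 : c * B * B ^ 2 ≤ c * B ^ 4 := by
      have : B ^ 3 ≤ B ^ 4 := pow_le_pow_right₀ hbone (by norm_num)
      nlinarith
    have h7 : ((K + 1) * (N + 3)) * B ^ 2 ≤ c * B * B ^ 2 :=
      mul_le_mul_of_nonneg_right h5 (by positivity)
    nlinarith
  have hq : ((N : ℝ) * i + 2) * i ≤ (N + 2) * B := by
    have : (i : ℝ) ^ 2 = i * i := sq _
    have h8 : (N : ℝ) * (i : ℝ) ^ 2 ≤ N * B := mul_le_mul_of_nonneg_left h2 hN0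
    nlinarith
  have hBB : B ≤ B ^ 2 := by nlinarith
  constructor
  · have h9 : K * (((N : ℝ) * i + 2) * i) ≤ K * ((N + 2) * B) := mul_le_mul_of_nonneg_left hq hK
    have h10 : K * ((N + 2) * B) ≤ ((N : ℝ) + 3) * B ^ 2 * (K + 1) := by
      have h11 : (N + 2) * B ≤ ((N : ℝ) + 3) * B ^ 2 := by nlinarith
      have h12 : K * ((N + 2) * B) ≤ K * (((N : ℝ) + 3) * B ^ 2) := mul_le_mul_of_nonneg_left h11 hK
      have h13 : 0 ≤ ((N : ℝ) + 3) * B ^ 2 := by positivity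
      linarith
    linarith
  · have h9 : B * i ≤ B ^ 2 := by nlinarith
    have h14 : ((N : ℝ) + 3) * B ^ 2 ≤ ((N : ℝ) + 3) * B ^ 2 * (K + 1) := by
      have h13 : 0 ≤ ((N : ℝ) + 3) * B ^ 2 := by positivity
      nlinarith
    have h15 : ((N : ℝ) * i + 2 + B) * i ≤ (N + 3) * B ^ 2 := by
      have : ((N : ℝ) * i + 2 + B) * i = ((N : ℝ) * i + 2) * i + B * i := by ring
      rw [this]
      nlinarith
    linarith

theorem prodOn_half_nonneg (B T : Finset ℕ) : 0 ≤ prodOn half B T := by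
  unfold prodOn half
  refine mul_nonneg (prod_nonneg fun _ _ => by norm_num) (prod_nonneg fun _ _ => by norm_num)

theorem t_BADF : J_BADF := by
  classical
  intro hC hM hD hA hP r Fam N e hF he
  obtain ⟨κ, hκ, hT⟩ := hP hC hM hD hA r
  refine ⟨κ * e ^ 2 / 8, by positivity, ?_⟩
  have hc8 : 0 < κ * e ^ 2 / 8 := by positivity
  obtain ⟨x₀, hx₀⟩ := eventually_atTop.1 (hF.size (1 / (4 * N + 4)) (by positivity))
  have hx1 : ∀ᶠ i : ℕ in atTop, 2 * x₀ ≤ 2 ^ i :=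
    (tendsto_pow_atTop_atTop_of_one_lt (show (1 : ℕ) < 2 by norm_num)).eventually_ge_atTop _
  filter_upwards [hx1, ev_aux N (18 * (r + 1) ^ 2) e (by positivity) he,
    ev_aux N 1 (κ * e ^ 2 / 8) (by norm_num) hc8, eventually_ge_atTop 1] with i hi0 hi1' hi2' hi3
  have hi1 := hi1'.1
  have hi2 := hi2'.2
  have hipos : (0 : ℝ) < i := by exact_mod_cast hi3
  have h2pos : (0 : ℝ) < 2 ^ i := by positivity
  obtain ⟨X, hX⟩ : ∃ X : Finset ℕ, X = (range (2 ^ (N * i) + 1)).filter (fun x => 2 ^ i ≤ 2 * x) := ⟨_, rfl⟩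
  have hXm : ∀ x, x ∈ X ↔ x ≤ 2 ^ (N * i) ∧ 2 ^ i ≤ 2 * x := by
    intro x; rw [hX, mem_filter, mem_range, Nat.lt_succ_iff]
  have hub := union_bound (pl (i + 1)).powerset X (fun x => Fam x)
    (fun T => prodOn half (pl (i + 1)) T) (fun T _ => prodOn_half_nonneg _ _)
    (fun T => BadF Fam N e i (T : Set ℕ))
    (fun x q T => e * ((x : ℝ) / i) ≤ |part q.1 (T : Set ℕ) q.2 x i|)
    (by
      rintro T - ⟨x, hx2, hxN, q, hq, hb⟩
      exact ⟨x, (hXm x).2 ⟨hxN, hx2⟩, q, hq, hb⟩)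
  refine hub.trans ?_
  obtain ⟨E, hE⟩ : ∃ E : ℝ, E = Real.exp (-(κ * e ^ 2 / 4 * (2 ^ i / (i : ℝ)))) := ⟨_, rfl⟩
  have hE0 : 0 < E := by rw [hE]; exact Real.exp_pos _
  have hterm : ∀ x ∈ X, ∀ q ∈ Fam x,
      ∑ T ∈ (pl (i + 1)).powerset with e * ((x : ℝ) / i) ≤ |part q.1 ((T : Finset ℕ) : Set ℕ) q.2 x i|,
        prodOn half (pl (i + 1)) T ≤ 2 * E := by
    intro x hx q hq
    obtain ⟨hxN, hx2⟩ := (hXm x).1 hx
    have hx0 : 0 < x := by
      have : 0 < 2 ^ i := by positivity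
      omega
    have hxr : (0 : ℝ) < x := by exact_mod_cast hx0
    have hu : 0 < e * (x : ℝ) / (2 * i) := by positivity
    have h1 := hT q.1 q.2 x i (e * (x : ℝ) / (2 * i)) (hF.weight x q hq) (hF.card x q hq)
      (hF.shift x q hq) hi3 hx2 hu
    have h2 : κ * (e * (x : ℝ) / (2 * i)) ^ 2 * i * 2 ^ i / (x : ℝ) ^ 2 =
        κ * e ^ 2 / 4 * (2 ^ i / (i : ℝ)) := by
      field_simp
      norm_num
    rw [h2, ← hE] at h1
    refine le_trans (sum_le_sum_of_subset_of_nonneg ?_ (fun T _ _ => prodOn_half_nonneg _ _)) h1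
    intro T hTm
    rw [mem_filter] at hTm ⊢
    refine ⟨hTm.1, le_trans ?_ hTm.2⟩
    have hlog : (Nat.log 2 x : ℝ) ≤ N * i := by
      have h3 : Nat.log 2 x ≤ N * i := by
        calc Nat.log 2 x ≤ Nat.log 2 (2 ^ (N * i)) := Nat.log_mono_right hxN
          _ = N * i := Nat.log_pow (by norm_num) _
      exact_mod_cast h3
    have h4 : 9 * ((r : ℝ) + 1) ^ 2 * (x : ℝ) * (Nat.log 2 x + 1) / 2 ^ i ≤ e * (x : ℝ) / (2 * i) := by
      rw [div_le_div_iff₀ h2pos (by positivity)]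
      have h5 : 18 * ((r : ℝ) + 1) ^ 2 * ((Nat.log 2 x + 1) * i) ≤ e * 2 ^ i := by
        refine le_trans ?_ hi1
        refine mul_le_mul_of_nonneg_left ?_ (by positivity)
        refine mul_le_mul_of_nonneg_right ?_ hipos.le
        linarith
      calc 9 * ((r : ℝ) + 1) ^ 2 * (x : ℝ) * (Nat.log 2 x + 1) * (2 * i) =
          (18 * ((r : ℝ) + 1) ^ 2 * ((Nat.log 2 x + 1) * i)) * x := by ring
        _ ≤ (e * 2 ^ i) * x := mul_le_mul_of_nonneg_right h5 hxr.le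
        _ = e * (x : ℝ) * 2 ^ i := by ring
    have h6 : e * ((x : ℝ) / i) = e * (x : ℝ) / (2 * i) + e * (x : ℝ) / (2 * i) := by
      field_simp
      norm_num
    rw [h6]
    linarith
  have hcard : ∀ x ∈ X, ((Fam x).card : ℝ) ≤ Real.exp ((2 : ℝ) ^ ((i : ℝ) / 4)) := by
    intro x hx
    obtain ⟨hxN, hx2⟩ := (hXm x).1 hx
    have hxx : x₀ ≤ x := by omega
    refine (hx₀ x hxx).trans (Real.exp_le_exp.2 ?_)
    have h1 : (x : ℝ) ≤ (2 : ℝ) ^ ((N * i : ℕ) : ℝ) := by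
      rw [Real.rpow_natCast]
      exact_mod_cast hxN
    calc (x : ℝ) ^ ((1 : ℝ) / (4 * N + 4)) ≤
        ((2 : ℝ) ^ ((N * i : ℕ) : ℝ)) ^ ((1 : ℝ) / (4 * N + 4)) :=
          Real.rpow_le_rpow (Nat.cast_nonneg x) h1 (by positivity)
      _ = (2 : ℝ) ^ (((N * i : ℕ) : ℝ) * ((1 : ℝ) / (4 * N + 4))) := by
          rw [← Real.rpow_mul (by norm_num)]
      _ ≤ (2 : ℝ) ^ ((i : ℝ) / 4) := by
          refine Real.rpow_le_rpow_of_exponent_le (by norm_num) ?_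
          push_cast
          rw [mul_one_div, div_le_div_iff₀ (by positivity) (by norm_num)]
          nlinarith
  have hXc : (X.card : ℝ) ≤ 2 ^ (N * i) + 1 := by
    have h1 : X.card ≤ 2 ^ (N * i) + 1 := by
      rw [hX]
      exact (card_filter_le _ _).trans (card_range _).le
    exact_mod_cast h1
  calc ∑ x ∈ X, ∑ q ∈ Fam x, ∑ T ∈ (pl (i + 1)).powerset with
        e * ((x : ℝ) / i) ≤ |part q.1 ((T : Finset ℕ) : Set ℕ) q.2 x i|, prodOn half (pl (i + 1)) T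
      ≤ ∑ x ∈ X, ∑ q ∈ Fam x, 2 * E :=
        sum_le_sum (fun x hx => sum_le_sum (fun q hq => hterm x hx q hq))
    _ = ∑ x ∈ X, ((Fam x).card : ℝ) * (2 * E) := by
        refine sum_congr rfl (fun x _ => ?_)
        rw [sum_const, nsmul_eq_mul]
    _ ≤ ∑ x ∈ X, Real.exp ((2 : ℝ) ^ ((i : ℝ) / 4)) * (2 * E) :=
        sum_le_sum (fun x hx => mul_le_mul_of_nonneg_right (hcard x hx) (by positivity))
    _ = (X.card : ℝ) * (Real.exp ((2 : ℝ) ^ ((i : ℝ) / 4)) * (2 * E)) := by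
        rw [sum_const, nsmul_eq_mul]
    _ ≤ (2 ^ (N * i) + 1) * (Real.exp ((2 : ℝ) ^ ((i : ℝ) / 4)) * (2 * E)) :=
        mul_le_mul_of_nonneg_right hXc (by positivity)
    _ = ((2 ^ (N * i) + 1) * 2) * (Real.exp ((2 : ℝ) ^ ((i : ℝ) / 4)) * E) := by ring
    _ ≤ Real.exp (N * i + 2) * (Real.exp ((2 : ℝ) ^ ((i : ℝ) / 4)) * E) := by
        refine mul_le_mul_of_nonneg_right ?_ (by positivity)
        have h1 : (2 : ℝ) ^ (N * i) ≤ Real.exp (N * i) := by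
          have h2 : (2 : ℝ) ≤ Real.exp 1 := by
            have := Real.add_one_le_exp (1 : ℝ); linarith
          calc (2 : ℝ) ^ (N * i) ≤ (Real.exp 1) ^ (N * i) := pow_le_pow_left₀ (by norm_num) h2 _
            _ = Real.exp (N * i) := by rw [← Real.exp_nat_mul]; push_cast; ring_nf
        have h3 : (1 : ℝ) ≤ Real.exp (N * i) := Real.one_le_exp (by positivity)
        have h4 : (4 : ℝ) ≤ Real.exp 2 := by
          have h5 : (2 : ℝ) ≤ Real.exp 1 := by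
            have := Real.add_one_le_exp (1 : ℝ); linarith
          have h6 : Real.exp 2 = Real.exp 1 * Real.exp 1 := by rw [← Real.exp_add]; norm_num
          rw [h6]; nlinarith
        rw [Real.exp_add]
        have h7 : 0 < Real.exp ((N : ℝ) * i) := Real.exp_pos _
        nlinarith
    _ = Real.exp (N * i + 2 + (2 : ℝ) ^ ((i : ℝ) / 4) - κ * e ^ 2 / 4 * (2 ^ i / (i : ℝ))) := by
        rw [hE, ← Real.exp_add, ← Real.exp_add]
        congr 1
        ring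
    _ ≤ Real.exp (-(κ * e ^ 2 / 8 * (2 ^ i / (i : ℝ)))) := by
        refine Real.exp_le_exp.2 ?_
        have h1 : (N : ℝ) * i + 2 + (2 : ℝ) ^ ((i : ℝ) / 4) ≤ κ * e ^ 2 / 8 * (2 ^ i / (i : ℝ)) := by
          rw [← mul_div_assoc, le_div_iff₀ hipos]
          exact hi2
        have h2 : κ * e ^ 2 / 4 * (2 ^ i / (i : ℝ)) = 2 * (κ * e ^ 2 / 8 * (2 ^ i / (i : ℝ))) := by ring
        rw [h2]
        linarith

end Pool.Agent.Q75.FE
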