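import Pool.Agent.Q78.FE.Stm2

set_option autoImplicit false

namespace Q75.FE

open Finset H974 Q78.FE Pool.Agent.H160R2.CV Pool.Agent.H160R2.CV.Quad H362P

theorem NW.anti {κ a p : ℝ} {n m : ℕ} (h : NW κ a p n) (hm : m ≤ n) : NW κ a p m :=
  ⟨h.lo, h.hi, h.win.anti hm, fun k h1 h2 => h.arm k h1 (h2.trans hm)⟩

theorem bo_mono {v : Vtx} {m n : ℕ} (h : m ≤ n) : bo v m ⊆ bo v n := by
  rintro ⟨a, b, _ | _⟩ h1
  · simp only [bo, mem_RE_false] at h1 ⊢; omega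
  · simp only [bo, mem_RE_true] at h1 ⊢; omega

theorem ok_const {p : ℝ} (h0 : 0 ≤ p) (h1 : p ≤ 1) : Ok (fun _ : Edg => p) := fun _ => ⟨h0, h1⟩

theorem Wt_nonneg (c p : ℝ) (k0 u m L s : ℕ) (F : Finset Edg) : 0 ≤ Wt c p k0 u m L s F := ind_nonneg _

theorem Yz_mono (hLOC : S_LOC) {z : Vtx} {u : ℕ} (hu : 1 ≤ u) {F F' : Finset Edg} (h : F ⊆ F') :
    Yz z u F ≤ Yz z u F' := by
  unfold Yz
  apply sum_le_sum
  intro v _
  exact ind_mono (((hLOC z u hu F F').2.2.2 h).2.2.2 v)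

theorem Yz_loc (hLOC : S_LOC) {z : Vtx} {u r : ℕ} (hu : 1 ≤ u) (hr : 9 * u ≤ r) (F : Finset Edg) :
    Yz z u F = Yz z u (F ∩ bo z r) := by
  unfold Yz
  apply sum_congr rfl
  intro v _
  apply ind_congr
  apply (hLOC z u hu F (F ∩ bo z r)).2.2.1
  ext e
  simp only [mem_inter]
  constructor
  · rintro ⟨a, b⟩; exact ⟨⟨a, bo_mono hr b⟩, b⟩
  · rintro ⟨⟨a, -⟩, b⟩; exact ⟨a, b⟩

/-- the tail constant tends to zero -/
theorem tail_small (A b : ℝ) (hb : 0 < b) : ∃ T0 : ℕ, ∀ T : ℕ, T0 ≤ T →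
    A * (T : ℝ) ^ 2 * Real.exp (-(b * (T : ℝ) ^ (1 / 2 : ℝ))) ≤ 1 / 4 := by
  have h1 : Filter.Tendsto (fun x : ℝ => x ^ (4 : ℝ) * Real.exp (-b * x)) Filter.atTop (nhds 0) :=
    tendsto_rpow_mul_exp_neg_mul_atTop_nhds_zero 4 b hb
  have h2 : Filter.Tendsto (fun T : ℕ => ((T : ℝ) ^ (1 / 2 : ℝ))) Filter.atTop Filter.atTop :=
    (tendsto_rpow_atTop (by norm_num)).comp tendsto_natCast_atTop_atTop
  have h3 := ((h1.comp h2).const_mul A)
  rw [mul_zero] at h3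
  have h4 := h3.eventually (ge_mem_nhds (show (0:ℝ) < 1 / 4 by norm_num))
  obtain ⟨T0, hT0⟩ := Filter.eventually_atTop.mp h4
  refine ⟨T0, fun T hT => ?_⟩
  have h5 := hT0 T hT
  simp only [Function.comp] at h5
  rw [← Real.rpow_mul (Nat.cast_nonneg T)] at h5
  norm_num at h5
  refine le_trans (le_of_eq ?_) h5
  rw [mul_assoc]

theorem t_EXJ (hLOC : S_LOC) (hHYBW : S_HYBW) (hLOCW : S_LOCW) (hTY : S_TY) (hMASS : S_MASS)
    (hPHR : S_PHR) (hCNT : S_CNT) (hVP : S_VP) : S_EXJ := by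
  intro k0 hk0 κ a hκ ha
  have hk3 : 3 ≤ k0 := hk0.1
  have hk0R : (0 : ℝ) < k0 := by exact_mod_cast (by omega : 0 < k0)
  obtain ⟨c, hc0, hc1, hVP'⟩ := hVP k0 hk3 κ a hκ ha
  obtain ⟨C1, hC1, hMASS'⟩ := hMASS k0 κ a c hκ ha hc0
  obtain ⟨ct, Ct, hct, hCt, hTY'⟩ := hTY
  set C1' : ℝ := 400 * C1 * (k0 : ℝ) ^ (91 / 48 : ℝ) with hC1'
  have hC1'0 : 0 < C1' := by rw [hC1']; positivity
  set c1 : ℝ := 4 * C1' with hc1def
  have hc10 : 0 < c1 := by rw [hc1def]; positivity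
  set H : ℝ := 12800 * c1 with hHdef
  have hH0 : 0 < H := by rw [hHdef]; positivity
  obtain ⟨ρ, cH, hcH0, hcH1, hCNT'⟩ := hCNT κ a H hκ ha hH0
  set b : ℝ := ct * (k0 : ℝ) ^ (-(91 / 48) : ℝ) with hbdef
  have hb0 : 0 < b := by rw [hbdef]; positivity
  obtain ⟨T0, hT0⟩ := tail_small ((c * cH)⁻¹ * ((c ^ 49)⁻¹ * (Ct * (κ ^ 11)⁻¹))) b hb0
  refine ⟨c, cH, c1, H, ρ, T0, hc0, hc1, hcH0, hcH1, hc10, hH0, ?_⟩
  intro T m' m u s L hPm hTT0 hm' hm p hNW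
  obtain ⟨-, hT32, hm1, hu, hs, hL⟩ := hPm
  have hPm' : Pm k0 T m u s L := ⟨hk3, hT32, hm1, hu, hs, hL⟩
  have hu1 : 1 ≤ u := by rw [hu]; exact Nat.mul_pos (by omega) hm1
  have hu3 : 3 ≤ u := by rw [hu]; nlinarith
  have hs_u : 640 * u ≤ s := by rw [hs]; nlinarith
  have hu_m : 3 * m ≤ u := by rw [hu]; nlinarith
  have hp0 : 0 ≤ p := by have := hNW.lo; linarith
  have hp1 : p ≤ 1 / 2 := hNW.hi
  have hokp : Ok (fun _ : Edg => p) := ok_const hp0 (by linarith)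
  have hVPz : VP c p u m := by
    rw [hu]
    apply hVP' p m hm1
    apply NW.anti hNW
    rw [mul_assoc, ← hu]; omega
  have hcHz : ∀ z : Vtx, cH ≤ Pr (fun _ => p) (Bl z u) (Hc (H * (m : ℝ) ^ (91 / 48 : ℝ)) z m) := by
    intro z
    apply hCNT' p m' m hm' hm (NW.anti hNW (by omega)) z
    unfold Bl
    exact bo_mono (by omega)
  refine ⟨hVPz, hcHz, ?_⟩
  intro n hn N hN1 hN2
  have hmR : (1 : ℝ) ≤ m := by exact_mod_cast hm1
  have hmpow : (1 : ℝ) ≤ (m : ℝ) ^ (91 / 48 : ℝ) := Real.one_le_rpow hmR (by norm_num)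
  have hTR : (32 : ℝ) ≤ T := by exact_mod_cast hT32
  set M : ℝ := (m : ℝ) ^ (91 / 48 : ℝ) with hM
  have hM0 : 0 < M := by linarith
  have hN0 : 0 < N := lt_of_lt_of_le (by positivity) hN1
  -- the number of gadgets
  have hL1 : 1 ≤ L := by omega
  have hL40 : T ≤ 40 * L := by omega
  have hL20 : 20 * L ≤ T := by omega
  set K : ℕ := L * (2 * L + 1) with hK
  have hK1 : 1 ≤ K := by rw [hK]; nlinarith
  have hKT : K ≤ T ^ 2 := by rw [hK]; nlinarith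
  have hKT2 : T ^ 2 ≤ 800 * K := by rw [hK]; nlinarith
  have hKR : (T : ℝ) ^ 2 ≤ 800 * K := by exact_mod_cast hKT2
  have hKR1 : (K : ℝ) ≤ (T : ℝ) ^ 2 := by exact_mod_cast hKT
  have hKR0 : (1 : ℝ) ≤ K := by exact_mod_cast hK1
  set y : ℝ := H * M with hy
  have hy0 : 0 ≤ y := by rw [hy]; positivity
  set D : ℝ := (T : ℝ) ^ (1 / 2 : ℝ) * M with hD
  have hD0 : 0 ≤ D := by rw [hD]; positivity
  obtain ⟨-, q2, -, q4⟩ := hHYBW k0 T m u s L hPm' c cH y p hp0 hp1 hc0 hc1 hcH0 hcH1 hy0 hcHz n hn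
  have hNKy : N < (K : ℝ) * y := by
    have h1 : (K : ℝ) * y = 12800 * c1 * M * K := by rw [hy, hHdef]; ring
    rw [h1]
    have h2 : 16 * (c1 * (T : ℝ) ^ 2 * M) ≤ 12800 * c1 * M * K := by
      have : c1 * M * (T : ℝ) ^ 2 ≤ c1 * M * (800 * K) := mul_le_mul_of_nonneg_left hKR (by positivity)
      nlinarith
    have h3 : 0 < c1 * (T : ℝ) ^ 2 * M := by positivity
    linarith
  have q4' := q4 N hNKy
  have q2' := q2 N D hD0
  rw [q4', zero_add] at q2'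
  set e := Ex (fun _ => p) (boxE n) (fun F => Wt c p k0 u m L s F * ind (HR u T s F)) with he
  have he0 : 0 ≤ e := Ex_nonneg hokp fun F _ => mul_nonneg (Wt_nonneg _ _ _ _ _ _ _ F) (ind_nonneg _)
  -- Markov
  have hmass := hMASS' T m u s L hPm' p hNW hVPz n hn
  have hsu : (s : ℝ) ^ 2 * (u : ℝ) ^ (-(5 / 48) : ℝ) = 400 * (T : ℝ) ^ 2 * ((k0 : ℝ) ^ (91 / 48 : ℝ) * M) := by
    have huR : (0 : ℝ) < u := by exact_mod_cast hu1
    have e1 : (s : ℝ) = 20 * T * u := by rw [hs]; push_cast; ring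
    have e2 : (u : ℝ) ^ 2 * (u : ℝ) ^ (-(5 / 48) : ℝ) = (u : ℝ) ^ (91 / 48 : ℝ) := by
      rw [← Real.rpow_natCast, ← Real.rpow_add huR]; norm_num
    have e3 : (u : ℝ) ^ (91 / 48 : ℝ) = (k0 : ℝ) ^ (91 / 48 : ℝ) * M := by
      rw [hu, Nat.cast_mul, Real.mul_rpow (Nat.cast_nonneg _) (Nat.cast_nonneg _)]
    rw [e1, ← e3, ← e2]; ring
  have hmass2 : Ex (fun _ => p) (boxE n)
      (fun F => (Sz n (0, 0) F : ℝ) * (Wt c p k0 u m L s F * ind (HR u T s F))) ≤ N / 4 * e := by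
    refine hmass.trans ?_
    apply mul_le_mul_of_nonneg_right _ he0
    rw [hsu]
    have : C1 * (400 * (T : ℝ) ^ 2 * ((k0 : ℝ) ^ (91 / 48 : ℝ) * M)) = c1 * (T : ℝ) ^ 2 * M / 4 := by
      rw [hc1def, hC1']; ring
    rw [this]; linarith
  have hmarkov : 3 / 4 * e ≤ Ex (fun _ => p) (boxE n) (fun F => Wt c p k0 u m L s F * ind (HR u T s F) *
      ind ((Sz n (0, 0) F : ℝ) ≤ N)) := by
    have h1 : Ex (fun _ => p) (boxE n) (fun F => N * (Wt c p k0 u m L s F * ind (HR u T s F))) ≤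
        Ex (fun _ => p) (boxE n) (fun F => (Sz n (0, 0) F : ℝ) * (Wt c p k0 u m L s F * ind (HR u T s F)) +
          N * (Wt c p k0 u m L s F * ind (HR u T s F) * ind ((Sz n (0, 0) F : ℝ) ≤ N))) := by
      apply Ex_mono hokp
      intro F _
      have hw : 0 ≤ Wt c p k0 u m L s F * ind (HR u T s F) :=
        mul_nonneg (Wt_nonneg _ _ _ _ _ _ _ F) (ind_nonneg _)
      have hSz : (0 : ℝ) ≤ (Sz n (0, 0) F : ℝ) := Nat.cast_nonneg _
      by_cases hle : (Sz n (0, 0) F : ℝ) ≤ N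
      · rw [ind_of hle, mul_one]
        have := mul_nonneg hSz hw
        linarith
      · push Not at hle
        have h2 : N * (Wt c p k0 u m L s F * ind (HR u T s F)) ≤
            (Sz n (0, 0) F : ℝ) * (Wt c p k0 u m L s F * ind (HR u T s F)) :=
          mul_le_mul_of_nonneg_right hle.le hw
        have h3 : 0 ≤ N * (Wt c p k0 u m L s F * ind (HR u T s F) * ind ((Sz n (0, 0) F : ℝ) ≤ N)) :=
          mul_nonneg hN0.le (mul_nonneg hw (ind_nonneg _))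
        linarith
    rw [Ex_add, Ex_mul_left, Ex_mul_left, ← he] at h1
    have h2 : N * (3 / 4 * e) ≤ N * Ex (fun _ => p) (boxE n) (fun F =>
        Wt c p k0 u m L s F * ind (HR u T s F) * ind ((Sz n (0, 0) F : ℝ) ≤ N)) := by linarith
    exact le_of_mul_le_mul_left h2 hN0
  -- the tails
  set W := Ex (fun _ => p) (boxE n) (Wt c p k0 u m L s) with hW
  have hW0 : 0 ≤ W := Ex_nonneg hokp fun F _ => Wt_nonneg _ _ _ _ _ _ _ F
  obtain ⟨-, w2, w3, -, -⟩ := hLOCW k0 T m u s L hPm' c p hp0 hp1 hVPz n hn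
  have hphr := hPHR k0 T m u s L hPm' κ a p hNW n hn
  have hWe : W ≤ (κ ^ 11)⁻¹ * e := by
    have h1 : κ ^ 11 * W ≤ e := (mul_le_mul_of_nonneg_right hphr hW0).trans w3
    have h2 : 0 < κ ^ 11 := by positivity
    rw [← div_eq_inv_mul, le_div_iff₀ h2]; linarith
  have hc49 : 0 < c ^ 49 := by positivity
  have htail : ∀ J : ℕ, Ex (fun _ => p) (boxE n) (fun F => ind (D < Yz (gk u L J) u F) *
      Wt c p k0 u m L s F) ≤
      (c ^ 49)⁻¹ * (Ct * Real.exp (-(b * (T : ℝ) ^ (1 / 2 : ℝ))) * W) := by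
    intro J
    have hnv : 200 * u ≤ nv (gk u L J) := by
      unfold nv gk cz
      apply le_max_of_le_left
      simp only
      have h1 : (200 * (u : ℤ) * (-((J / (2 * L + 1) : ℕ) : ℤ) - 1)).natAbs =
          200 * u * (J / (2 * L + 1) + 1) := by
        generalize J / (2 * L + 1) = q
        rw [Int.natAbs_mul, Int.natAbs_mul]
        have e1 : (-((q : ℕ) : ℤ) - 1).natAbs = q + 1 := by omega
        rw [e1]
        simp
      rw [h1]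
      nlinarith [Nat.zero_le (J / (2 * L + 1))]
    have h1 := w2 (gk u L J) (fun F => ind (D < Yz (gk u L J) u F)) (fun F => ind_nonneg _)
      (fun F F' hFF => ind_mono fun h => lt_of_lt_of_le h (Yz_mono hLOC hu1 hFF))
      (fun F => by rw [← Yz_loc hLOC hu1 (by omega) F]) hnv
    have hx : 0 ≤ (T : ℝ) ^ (1 / 2 : ℝ) * (k0 : ℝ) ^ (-(91 / 48) : ℝ) := by positivity
    have h2 := hTY' p u hp0 hp1 hu3 (gk u L J) (boxE n) _ hx
    have hDu : (T : ℝ) ^ (1 / 2 : ℝ) * (k0 : ℝ) ^ (-(91 / 48) : ℝ) * (u : ℝ) ^ (91 / 48 : ℝ) = D := by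
      rw [hD, hu, Nat.cast_mul, Real.mul_rpow (Nat.cast_nonneg _) (Nat.cast_nonneg _)]
      have : (k0 : ℝ) ^ (-(91 / 48) : ℝ) * (k0 : ℝ) ^ (91 / 48 : ℝ) = 1 := by
        rw [← Real.rpow_add hk0R]; simp
      calc (T : ℝ) ^ (1 / 2 : ℝ) * (k0 : ℝ) ^ (-(91 / 48) : ℝ) * ((k0 : ℝ) ^ (91 / 48 : ℝ) * (m : ℝ) ^ (91 / 48 : ℝ))
          = (T : ℝ) ^ (1 / 2 : ℝ) * ((k0 : ℝ) ^ (-(91 / 48) : ℝ) * (k0 : ℝ) ^ (91 / 48 : ℝ)) *
            (m : ℝ) ^ (91 / 48 : ℝ) := by ring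
        _ = _ := by rw [this, mul_one]
    rw [hDu] at h2
    have h3 : Ex (fun _ => p) (boxE n) (fun F => ind (D < Yz (gk u L J) u F)) ≤
        Ct * Real.exp (-(b * (T : ℝ) ^ (1 / 2 : ℝ))) := by
      refine le_trans h2 (le_of_eq ?_)
      rw [hbdef]; ring_nf
    have h4 : c ^ 49 * Ex (fun _ => p) (boxE n) (fun F => ind (D < Yz (gk u L J) u F) *
        Wt c p k0 u m L s F) ≤ Ct * Real.exp (-(b * (T : ℝ) ^ (1 / 2 : ℝ))) * W :=
      h1.trans (mul_le_mul_of_nonneg_right h3 hW0)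
    rw [← div_eq_inv_mul, le_div_iff₀ hc49]
    linarith
  have hccH : 0 < (c * cH)⁻¹ := by positivity
  have hsumtail : ∑ J ∈ range K, (c * cH)⁻¹ * Ex (fun _ => p) (boxE n)
      (fun F => ind (D < Yz (gk u L J) u F) * Wt c p k0 u m L s F) ≤ 1 / 4 * e := by
    have h1 : ∀ J ∈ range K, (c * cH)⁻¹ * Ex (fun _ => p) (boxE n)
        (fun F => ind (D < Yz (gk u L J) u F) * Wt c p k0 u m L s F) ≤
        (c * cH)⁻¹ * ((c ^ 49)⁻¹ * (Ct * Real.exp (-(b * (T : ℝ) ^ (1 / 2 : ℝ))) * ((κ ^ 11)⁻¹ * e))) := by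
      intro J _
      apply mul_le_mul_of_nonneg_left _ hccH.le
      refine (htail J).trans ?_
      gcongr
    refine (sum_le_sum h1).trans ?_
    rw [sum_const, card_range, nsmul_eq_mul]
    have h2 := hT0 T hTT0
    calc (K : ℝ) * ((c * cH)⁻¹ * ((c ^ 49)⁻¹ * (Ct * Real.exp (-(b * (T : ℝ) ^ (1 / 2 : ℝ))) * ((κ ^ 11)⁻¹ * e))))
        ≤ (T : ℝ) ^ 2 * ((c * cH)⁻¹ * ((c ^ 49)⁻¹ * (Ct * Real.exp (-(b * (T : ℝ) ^ (1 / 2 : ℝ))) *
          ((κ ^ 11)⁻¹ * e)))) := by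
          apply mul_le_mul_of_nonneg_right hKR1
          positivity
      _ = ((c * cH)⁻¹ * ((c ^ 49)⁻¹ * (Ct * (κ ^ 11)⁻¹)) * (T : ℝ) ^ 2 *
          Real.exp (-(b * (T : ℝ) ^ (1 / 2 : ℝ)))) * e := by ring
      _ ≤ 1 / 4 * e := mul_le_mul_of_nonneg_right h2 he0
  rw [sum_add_distrib] at q2'
  have hmain : e / 2 ≤ ∑ J ∈ range K, Ex (fun _ => p) (boxE n) (fun F =>
      QJ c y p k0 u m L s J F * ind (HR u T s F) * ind (|(Sz n (0, 0) F : ℝ) - N| ≤ D)) := by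
    linarith
  by_contra hcon
  push Not at hcon
  have hlt : ∑ J ∈ range K, 2 * (K : ℝ) * Ex (fun _ => p) (boxE n) (fun F =>
      QJ c y p k0 u m L s J F * ind (HR u T s F) * ind (|(Sz n (0, 0) F : ℝ) - N| ≤ D)) <
      ∑ J ∈ range K, e := by
    apply sum_lt_sum_of_nonempty
    · rw [nonempty_range_iff]; omega
    · intro J hJ
      exact hcon J (mem_range.mp hJ)
  rw [← mul_sum, sum_const, card_range, nsmul_eq_mul] at hlt
  have h1 : 2 * (K : ℝ) * (e / 2) ≤ 2 * (K : ℝ) * ∑ J ∈ range K, Ex (fun _ => p) (boxE n) (fun F =>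
      QJ c y p k0 u m L s J F * ind (HR u T s F) * ind (|(Sz n (0, 0) F : ℝ) - N| ≤ D)) :=
    mul_le_mul_of_nonneg_left hmain (by positivity)
  linarith

end Q75.FE
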