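import Pool.Agent.Q78.FE.Stm2

set_option autoImplicit false

namespace Q75.FE

open Finset H974 Q78.FE

theorem smo_up (h : ℕ → ℝ) (Λ : ℝ) (h1 : ∀ k, |h (k + 1) - h k| ≤ Λ) (N d : ℕ) :
    |h (N + d) - h N| ≤ d * Λ := by
  induction d with
  | zero => simp
  | succ d ih =>
    have h2 := h1 (N + d)
    have h3 : h (N + (d + 1)) - h N = (h (N + d + 1) - h (N + d)) + (h (N + d) - h N) := by ring_nf
    rw [h3]
    calc |(h (N + d + 1) - h (N + d)) + (h (N + d) - h N)|
        ≤ |h (N + d + 1) - h (N + d)| + |h (N + d) - h N| := abs_add_le _ _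
      _ ≤ Λ + d * Λ := add_le_add h2 ih
      _ = _ := by push_cast; ring

theorem t_SMO : S_SMO := by
  intro h Λ ν N D hΛ h0 h1 hν
  have hb : ∀ k ∈ (range (N + D + 1)).filter (fun k => N ≤ k + D), h k ≤ h N + D * Λ := by
    intro k hk
    rw [mem_filter, mem_range] at hk
    rcases le_total N k with hNk | hkN
    · obtain ⟨d, rfl⟩ := Nat.exists_eq_add_of_le hNk
      have h2 := (abs_le.mp (smo_up h Λ h1 N d)).2
      have h3 : (d : ℝ) ≤ D := by exact_mod_cast (by omega : d ≤ D)
      have h4 : (d : ℝ) * Λ ≤ D * Λ := mul_le_mul_of_nonneg_right h3 hΛ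
      linarith
    · obtain ⟨d, rfl⟩ := Nat.exists_eq_add_of_le hkN
      have h2 := (abs_le.mp (smo_up h Λ h1 k d)).1
      have h3 : (d : ℝ) ≤ D := by exact_mod_cast (by omega : d ≤ D)
      have h4 : (d : ℝ) * Λ ≤ D * Λ := mul_le_mul_of_nonneg_right h3 hΛ
      linarith
  have hcard : ((range (N + D + 1)).filter (fun k => N ≤ k + D)).card ≤ 2 * D + 1 := by
    have hsub : (range (N + D + 1)).filter (fun k => N ≤ k + D) ⊆ Finset.Icc (N - D) (N + D) := by
      intro k hk
      rw [mem_filter, mem_range] at hk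
      rw [Finset.mem_Icc]
      omega
    refine (card_le_card hsub).trans ?_
    rw [Nat.card_Icc]
    omega
  have hnn : 0 ≤ h N + D * Λ := by
    have := h0 N
    positivity
  calc ν ≤ ∑ k ∈ (range (N + D + 1)).filter (fun k => N ≤ k + D), h k := hν
    _ ≤ ∑ k ∈ (range (N + D + 1)).filter (fun k => N ≤ k + D), (h N + D * Λ) := sum_le_sum hb
    _ = (((range (N + D + 1)).filter (fun k => N ≤ k + D)).card : ℝ) * (h N + D * Λ) := by
        rw [sum_const, nsmul_eq_mul]
    _ ≤ _ := by
        apply mul_le_mul_of_nonneg_right _ hnn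
        exact_mod_cast hcard

theorem t_LOCM : S_LOCM := by
  classical
  intro E ι _ _ p hp U I V S T f c k hinc hloc hf hf0 hc0 hc1 hc hk
  set A : Finset E → Prop := fun F => ∀ i ∈ I.filter (fun i => Disjoint (S i) T), V i F with hA
  have hAinc : IncrE U A := fun F G hFG hGU h i hi => hinc i (mem_filter.mp hi).1 F G hFG hGU (h i hi)
  -- harris part
  have hN : ∀ N' : Finset ι, N' ⊆ I.filter (fun i => ¬ Disjoint (S i) T) →
      IncrE U (fun F => A F ∧ ∀ i ∈ N', V i F) ∧
      Pr p U A * c ^ N'.card ≤ Pr p U (fun F => A F ∧ ∀ i ∈ N', V i F) := by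
    intro N'
    induction N' using Finset.induction_on with
    | empty =>
      intro _
      refine ⟨?_, ?_⟩
      · intro F G hFG hGU h
        exact ⟨hAinc F G hFG hGU h.1, by simp⟩
      · rw [card_empty, pow_zero, mul_one]
        exact le_of_eq (Pr_congr fun F _ => by simp)
    | insert a N' ha ih =>
      intro hsub
      obtain ⟨i1, i2⟩ := ih (fun x hx => hsub (mem_insert_of_mem hx))
      have haI := mem_filter.mp (hsub (mem_insert_self a N'))
      have hinc_a := hinc a haI.1
      refine ⟨?_, ?_⟩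
      · intro F G hFG hGU h
        exact ⟨hAinc F G hFG hGU h.1, fun i hi =>
          hinc i (mem_filter.mp (hsub hi)).1 F G hFG hGU (h.2 i hi)⟩
      · have h1 := Pr_harris hp i1 hinc_a
        have h2 := hc a haI.1 haI.2
        have h3 : Pr p U (fun F => (A F ∧ ∀ i ∈ N', V i F) ∧ V a F) =
            Pr p U (fun F => A F ∧ ∀ i ∈ insert a N', V i F) := by
          apply Pr_congr
          intro F _
          rw [forall_mem_insert]; tauto
        rw [card_insert_of_notMem ha, pow_succ, ← mul_assoc, ← h3]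
        refine le_trans ?_ h1
        exact mul_le_mul i2 h2 hc0 (Pr_nonneg hp _ _)
  obtain ⟨-, hharris⟩ := hN _ (subset_refl _)
  have hall : Pr p U (fun F => A F ∧ ∀ i ∈ I.filter (fun i => ¬ Disjoint (S i) T), V i F) =
      Pr p U (fun F => ∀ i ∈ I, V i F) := by
    apply Pr_congr
    intro F _
    constructor
    · rintro ⟨h1, h2⟩ i hi
      by_cases hd : Disjoint (S i) T
      · exact h1 i (mem_filter.mpr ⟨hi, hd⟩)
      · exact h2 i (mem_filter.mpr ⟨hi, hd⟩)
    · intro h
      exact ⟨fun i hi => h i (mem_filter.mp hi).1, fun i hi => h i (mem_filter.mp hi).1⟩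
  rw [hall] at hharris
  have hpow : c ^ k ≤ c ^ (I.filter (fun i => ¬ Disjoint (S i) T)).card := pow_le_pow_of_le_one hc0 hc1 hk
  have hPrA : 0 ≤ Pr p U A := Pr_nonneg hp _ _
  have h1 : Pr p U A * c ^ k ≤ Pr p U (fun F => ∀ i ∈ I, V i F) :=
    (mul_le_mul_of_nonneg_left hpow hPrA).trans hharris
  -- independence
  have hEf : 0 ≤ Ex p U f := Ex_nonneg hp fun F _ => hf0 F
  have h2 : Ex p U (fun F => f F * ind (∀ i ∈ I, V i F)) ≤ Ex p U f * Pr p U A := by
    have h3 : Ex p U (fun F => f F * ind (∀ i ∈ I, V i F)) ≤ Ex p U (fun F => f F * ind (A F)) := by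
      apply Ex_mono hp
      intro F _
      apply mul_le_mul_of_nonneg_left _ (hf0 F)
      exact ind_mono fun h i hi => h i (mem_filter.mp hi).1
    refine h3.trans (le_of_eq ?_)
    apply Ex_mul_indep (S := U ∩ T) (T := U \ T) inter_subset_left sdiff_subset
    · exact Finset.disjoint_left.mpr fun x hx hx2 => (mem_sdiff.mp hx2).2 (mem_inter.mp hx).2
    · intro F hF
      rw [hf F, hf (F ∩ (U ∩ T))]
      congr 1
      ext x
      simp only [mem_inter]
      constructor
      · rintro ⟨a, b⟩; exact ⟨⟨a, hF a, b⟩, b⟩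
      · rintro ⟨⟨a, -, b⟩, -⟩; exact ⟨a, b⟩
    · intro F hF
      apply ind_congr
      constructor
      · intro h i hi
        have hi' := mem_filter.mp hi
        rw [hloc i hi'.1 (F ∩ (U \ T))]
        have e : F ∩ (U \ T) ∩ S i = F ∩ S i := by
          ext x
          simp only [mem_inter, mem_sdiff]
          constructor
          · rintro ⟨⟨a, -⟩, b⟩; exact ⟨a, b⟩
          · rintro ⟨a, b⟩
            exact ⟨⟨a, hF a, fun c => Finset.disjoint_left.mp hi'.2 b c⟩, b⟩
        rw [e, ← hloc i hi'.1 F]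
        exact h i hi
      · intro h i hi
        have hi' := mem_filter.mp hi
        have := h i hi
        rw [hloc i hi'.1 (F ∩ (U \ T))] at this
        have e : F ∩ (U \ T) ∩ S i = F ∩ S i := by
          ext x
          simp only [mem_inter, mem_sdiff]
          constructor
          · rintro ⟨⟨a, -⟩, b⟩; exact ⟨a, b⟩
          · rintro ⟨a, b⟩
            exact ⟨⟨a, hF a, fun c => Finset.disjoint_left.mp hi'.2 b c⟩, b⟩
        rw [e, ← hloc i hi'.1 F] at this
        exact this
  have hck : 0 ≤ c ^ k := pow_nonneg hc0 k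
  calc c ^ k * Ex p U (fun F => f F * ind (∀ i ∈ I, V i F)) ≤ c ^ k * (Ex p U f * Pr p U A) :=
        mul_le_mul_of_nonneg_left h2 hck
    _ = Ex p U f * (Pr p U A * c ^ k) := by ring
    _ ≤ _ := mul_le_mul_of_nonneg_left h1 hEf

/-- averaging over a block -/
theorem avg {E : Type} [DecidableEq E] (p : E → ℝ) {U B : Finset E} (hB : B ⊆ U) (Φ : Finset E → ℝ) :
    Ex p U Φ = Ex p U (fun F => Ex p B (fun G => Φ ((F \ B) ∪ G))) := by
  have hU : U = (U \ B) ∪ B := by rw [sdiff_union_of_subset hB]
  have hd : Disjoint (U \ B) B := sdiff_disjoint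
  have h1 : Ex p U Φ = Ex p (U \ B) (fun A => Ex p B (fun G => Φ (A ∪ G))) := by
    conv_lhs => rw [hU]
    exact Ex_union hd Φ
  have h2 : Ex p U (fun F => Ex p B (fun G => Φ ((F \ B) ∪ G))) =
      Ex p (U \ B) (fun F => Ex p B (fun G => Φ ((F \ B) ∪ G))) := by
    apply Ex_local sdiff_subset
    intro F hF
    have e : (F ∩ (U \ B)) \ B = F \ B := by
      ext x
      simp only [mem_sdiff, mem_inter]
      constructor
      · rintro ⟨⟨a, -⟩, b⟩; exact ⟨a, b⟩
      · rintro ⟨a, b⟩; exact ⟨⟨a, hF a, b⟩, b⟩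
    rw [e]
  rw [h1, h2]
  apply Ex_congr
  intro A hA
  have e : A \ B = A := by
    ext x
    simp only [mem_sdiff]
    constructor
    · exact fun h => h.1
    · exact fun h => ⟨h, (mem_sdiff.mp (hA h)).2⟩
  rw [e]

theorem t_HYB : S_HYB := by
  classical
  intro E _ p hp U K B hBU r X y η hr hη hy hinv hmean
  have hsd : ∀ (F G : Finset E) (i : ℕ), G ⊆ B i → ((F \ B i) ∪ G) \ B i = F \ B i := by
    intro F G i hG
    ext x
    simp only [mem_sdiff, mem_union]
    constructor
    · rintro ⟨⟨a, b⟩ | a, c⟩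
      · exact ⟨a, b⟩
      · exact absurd (hG a) c
    · rintro ⟨a, b⟩
      exact ⟨Or.inl ⟨a, b⟩, b⟩
  have hsU : ∀ (F G : Finset E) (i : ℕ), i < K → F ⊆ U → G ⊆ B i → (F \ B i) ∪ G ⊆ U := by
    intro F G i hi hF hG
    exact union_subset (sdiff_subset.trans hF) (hG.trans (hBU i hi))
  have claim1 : ∀ k ≤ K, ∀ g : Finset E → ℝ,
      (∀ i < k, ∀ F F', F ⊆ U → F' ⊆ U → F \ B i = F' \ B i → g F' = g F) →
      Ex p U (fun F => r F * g F * ∏ i ∈ range k, η i F) = Ex p U (fun F => r F * g F) := by
    intro k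
    induction k with
    | zero => intro _ g _; simp
    | succ k ih =>
      intro hk g hg
      have hkK : k < K := hk
      rw [← ih (by omega) g (fun i hi => hg i (by omega))]
      rw [avg p (hBU k hkK)]
      apply Ex_congr
      intro F hF
      have h1 : Ex p (B k) (fun G => r ((F \ B k) ∪ G) * g ((F \ B k) ∪ G) *
          ∏ i ∈ range (k + 1), η i ((F \ B k) ∪ G)) =
          Ex p (B k) (fun G => (r F * g F * ∏ i ∈ range k, η i F) * η k ((F \ B k) ∪ G)) := by
        apply Ex_congr
        intro G hG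
        have hs := hsd F G k hG
        have hu := hsU F G k hkK hF hG
        obtain ⟨a1, -, a3⟩ := hinv k hkK F ((F \ B k) ∪ G) hF hu hs.symm
        rw [prod_range_succ, a1, hg k (by omega) F ((F \ B k) ∪ G) hF hu hs.symm]
        have : ∏ i ∈ range k, η i ((F \ B k) ∪ G) = ∏ i ∈ range k, η i F := by
          apply prod_congr rfl
          intro i hi
          have hi' := mem_range.mp hi
          exact (a3 i (by omega) (by omega)).1
        rw [this]; ring
      rw [h1, Ex_mul_left]
      by_cases hr0 : r F = 0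
      · rw [hr0]; ring
      · rw [hmean k hkK F hF hr0, mul_one]
  refine ⟨claim1, ?_⟩
  intro N D hD
  have step : ∀ j < K, Ex p U (fun F => r F * (∏ i ∈ range j, η i F) * ind (X F ≤ N)) ≤
      Ex p U (fun F => r F * (∏ i ∈ range (j + 1), η i F) * ind (X F ≤ N)) +
      (Ex p U (fun F => r F * (∏ i ∈ range j, η i F) * ind (|X F - N| ≤ D)) +
        Ex p U (fun F => r F * η j F * ind (D < y j F))) := by
    intro j hj
    have c1 : Ex p U (fun F => r F * η j F * ind (D < y j F)) =
        Ex p U (fun F => r F * (η j F * ind (D < y j F)) * ∏ i ∈ range j, η i F) := by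
      rw [claim1 j (by omega) (fun F => η j F * ind (D < y j F))]
      · apply Ex_congr; intro F _; ring
      · intro i hi F F' hF hF' he
        obtain ⟨-, -, a3⟩ := hinv i (by omega) F F' hF hF' he
        obtain ⟨b1, b2⟩ := a3 j hj (by omega)
        rw [b1, b2]
    rw [c1, ← Ex_add, ← Ex_add, avg p (hBU j hj), avg p (hBU j hj) (fun F => _ + _)]
    apply Ex_mono hp
    intro F hF
    set P := ∏ i ∈ range j, η i F with hP
    have hP0 : 0 ≤ P := prod_nonneg fun i hi => hη i (by have := mem_range.mp hi; omega) F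
    have e1 : Ex p (B j) (fun G => r ((F \ B j) ∪ G) * (∏ i ∈ range j, η i ((F \ B j) ∪ G)) *
        ind (X ((F \ B j) ∪ G) ≤ N)) =
        Ex p (B j) (fun G => (r F * P) * ind (X ((F \ B j) ∪ G) ≤ N)) := by
      apply Ex_congr
      intro G hG
      have hs := hsd F G j hG
      have hu := hsU F G j hj hF hG
      obtain ⟨a1, -, a3⟩ := hinv j hj F ((F \ B j) ∪ G) hF hu hs.symm
      have : ∏ i ∈ range j, η i ((F \ B j) ∪ G) = P := by
        apply prod_congr rfl
        intro i hi
        have hi' := mem_range.mp hi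
        exact (a3 i (by omega) (by omega)).1
      rw [a1, this]
    have e2 : Ex p (B j) (fun G =>
        r ((F \ B j) ∪ G) * (∏ i ∈ range (j + 1), η i ((F \ B j) ∪ G)) * ind (X ((F \ B j) ∪ G) ≤ N) +
        (r ((F \ B j) ∪ G) * (∏ i ∈ range j, η i ((F \ B j) ∪ G)) * ind (|X ((F \ B j) ∪ G) - N| ≤ D) +
        r ((F \ B j) ∪ G) * (η j ((F \ B j) ∪ G) * ind (D < y j ((F \ B j) ∪ G))) *
          ∏ i ∈ range j, η i ((F \ B j) ∪ G))) =
        Ex p (B j) (fun G => (r F * P) * (η j ((F \ B j) ∪ G) * ind (X ((F \ B j) ∪ G) ≤ N) +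
          (ind (|X ((F \ B j) ∪ G) - N| ≤ D) +
            η j ((F \ B j) ∪ G) * ind (D < y j ((F \ B j) ∪ G))))) := by
      apply Ex_congr
      intro G hG
      have hs := hsd F G j hG
      have hu := hsU F G j hj hF hG
      obtain ⟨a1, -, a3⟩ := hinv j hj F ((F \ B j) ∪ G) hF hu hs.symm
      have : ∏ i ∈ range j, η i ((F \ B j) ∪ G) = P := by
        apply prod_congr rfl
        intro i hi
        have hi' := mem_range.mp hi
        exact (a3 i (by omega) (by omega)).1
      rw [prod_range_succ, a1, this]; ring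
    rw [e1, e2, Ex_mul_left, Ex_mul_left]
    by_cases hr0 : r F = 0
    · rw [hr0]; simp
    apply mul_le_mul_of_nonneg_left _ (mul_nonneg (hr F) hP0)
    have hX : ∀ G, G ⊆ B j → X ((F \ B j) ∪ G) = (X F - y j F) + y j ((F \ B j) ∪ G) := by
      intro G hG
      have hs := hsd F G j hG
      have hu := hsU F G j hj hF hG
      have := (hinv j hj F ((F \ B j) ∪ G) hF hu hs.symm).2.1 hr0
      linarith
    set X' := X F - y j F with hX'
    by_cases hc1 : N < X'
    · apply Ex_mono hp
      intro G hG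
      have h1 := hX G hG
      have h2 := hy j hj ((F \ B j) ∪ G)
      rw [ind_not_of (by linarith : ¬ X ((F \ B j) ∪ G) ≤ N)]
      have := hη j hj ((F \ B j) ∪ G)
      have := ind_nonneg (|X ((F \ B j) ∪ G) - N| ≤ D)
      have := ind_nonneg (D < y j ((F \ B j) ∪ G))
      positivity
    push Not at hc1
    by_cases hc2 : X' ≤ N - D
    · have h1 : Ex p (B j) (fun G => ind (X ((F \ B j) ∪ G) ≤ N)) ≤
          Ex p (B j) (fun G => η j ((F \ B j) ∪ G)) := by
        rw [hmean j hj F hF hr0]
        exact Ex_le_of_le hp fun G _ => ind_le_one _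
      refine h1.trans (Ex_mono hp ?_)
      intro G hG
      have h2 := hX G hG
      have h3 := hη j hj ((F \ B j) ∪ G)
      have h4 := ind_nonneg (|X ((F \ B j) ∪ G) - N| ≤ D)
      by_cases hyD : D < y j ((F \ B j) ∪ G)
      · rw [ind_of hyD]
        have := ind_nonneg (X ((F \ B j) ∪ G) ≤ N)
        have := mul_nonneg h3 this
        linarith
      · push Not at hyD
        rw [ind_of (by linarith : X ((F \ B j) ∪ G) ≤ N)]
        have := ind_nonneg (D < y j ((F \ B j) ∪ G))
        have := mul_nonneg h3 this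
        linarith
    · push Not at hc2
      apply Ex_mono hp
      intro G hG
      have h2 := hX G hG
      have h3 := hη j hj ((F \ B j) ∪ G)
      have h5 := hy j hj ((F \ B j) ∪ G)
      have h6 := mul_nonneg h3 (ind_nonneg (X ((F \ B j) ∪ G) ≤ N))
      have h7 := mul_nonneg h3 (ind_nonneg (D < y j ((F \ B j) ∪ G)))
      have h8 : ind (X ((F \ B j) ∪ G) ≤ N) ≤ ind (|X ((F \ B j) ∪ G) - N| ≤ D) := by
        apply ind_mono
        intro h
        rw [abs_le]
        constructor <;> linarith
      linarith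
  have tel : ∀ k ≤ K, Ex p U (fun F => r F * ind (X F ≤ N)) ≤
      Ex p U (fun F => r F * (∏ i ∈ range k, η i F) * ind (X F ≤ N)) +
      ∑ j ∈ range k, (Ex p U (fun F => r F * (∏ i ∈ range j, η i F) * ind (|X F - N| ≤ D)) +
        Ex p U (fun F => r F * η j F * ind (D < y j F))) := by
    intro k
    induction k with
    | zero => intro _; simp
    | succ k ih =>
      intro hk
      rw [sum_range_succ]
      have h1 := ih (by omega)
      have h2 := step k (by omega)
      linarith
  exact tel K le_rfl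

end Q75.FE
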