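import Pool.Agent.Q75.FE.LOWc
import Pool.Agent.W424.NC.ArmLow

set_option autoImplicit false

namespace Q75.FE

open Q78.FE

theorem t_LOW (hK0 : S_K0) (hFIN : S_FIN) (hSML : S_SML) : S_LOW :=
  low_core Pool.Agent.W424.NC.nearG hK0 hFIN hSML

end Q75.FE
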