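import Pool.Agent.Q78.FE.Stm2

set_option autoImplicit false

namespace Q75.FE

open Finset H974 Q78.FE Pool.Agent.H160R2.CV Pool.Agent.H160R2.CV.Quad H362P

/-- choice of the number of the gadgets -/
theorem tau_choice (A ε : ℝ) (hε : 0 < ε) (T0 : ℕ) : ∃ τ : ℕ, T0 ≤ 2 ^ τ ∧
    A * ((2:ℝ) ^ τ) ^ (-(5 / 91) : ℝ) ≤ ε := by
  have h1 : Filter.Tendsto (fun τ : ℕ => ((2:ℝ) ^ τ)) Filter.atTop Filter.atTop :=
    tendsto_pow_atTop_atTop_of_one_lt (by norm_num)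
  have h2 : Filter.Tendsto (fun x : ℝ => A * x ^ (-(5 / 91) : ℝ)) Filter.atTop (nhds 0) := by
    have := (tendsto_rpow_neg_atTop (show (0:ℝ) < 5 / 91 by norm_num)).const_mul A
    rwa [mul_zero] at this
  have h3 := (h2.comp h1).eventually (ge_mem_nhds hε)
  have h4 : ∀ᶠ τ : ℕ in Filter.atTop, T0 ≤ 2 ^ τ := by
    filter_upwards [Filter.eventually_ge_atTop T0] with τ hτ
    exact hτ.trans (Nat.lt_two_pow_self).le
  obtain ⟨τ, a, b⟩ := (h3.and h4).exists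
  exact ⟨τ, b, a⟩

/-- the largest scale -/
theorem scale_choice (B x : ℝ) (hB : 0 < B) (ρ : ℕ) (hx : B * ((2:ℝ) ^ ρ) ^ (91 / 48 : ℝ) ≤ x) :
    ∃ j : ℕ, ρ ≤ j ∧ B * ((2:ℝ) ^ j) ^ (91 / 48 : ℝ) ≤ x ∧ x ≤ 4 * (B * ((2:ℝ) ^ j) ^ (91 / 48 : ℝ)) := by
  have h1 : Filter.Tendsto (fun j : ℕ => ((2:ℝ) ^ j)) Filter.atTop Filter.atTop :=
    tendsto_pow_atTop_atTop_of_one_lt (by norm_num)
  have h2 : Filter.Tendsto (fun y : ℝ => B * y ^ (91 / 48 : ℝ)) Filter.atTop Filter.atTop :=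
    (tendsto_rpow_atTop (by norm_num)).const_mul_atTop hB
  have h3 : ∃ j : ℕ, x < B * ((2:ℝ) ^ (ρ + j)) ^ (91 / 48 : ℝ) := by
    obtain ⟨j, hj1, hj2⟩ := ((h2.comp h1).eventually_gt_atTop x |>.and (Filter.eventually_ge_atTop ρ)).exists
    exact ⟨j - ρ, by rw [Nat.add_sub_cancel' hj2]; exact hj1⟩
  classical
  obtain ⟨j, hj, hmin⟩ := Nat.findX h3
  have hj0 : j ≠ 0 := by
    rintro rfl
    rw [add_zero] at hj
    linarith
  obtain ⟨i, rfl⟩ := Nat.exists_eq_succ_of_ne_zero hj0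
  have h4 := hmin i (Nat.lt_succ_self i)
  push Not at h4
  refine ⟨ρ + i, by omega, h4, ?_⟩
  have h5 : ((2:ℝ) ^ (ρ + i.succ)) ^ (91 / 48 : ℝ) = ((2:ℝ) ^ (ρ + i)) ^ (91 / 48 : ℝ) * 2 ^ (91 / 48 : ℝ) := by
    rw [Nat.add_succ, pow_succ, Real.mul_rpow (by positivity) (by norm_num)]
  have h6 : (2:ℝ) ^ (91 / 48 : ℝ) ≤ 4 := by
    have : (2:ℝ) ^ (91 / 48 : ℝ) ≤ 2 ^ (2 : ℝ) := Real.rpow_le_rpow_of_exponent_le (by norm_num) (by norm_num)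
    refine this.trans (le_of_eq ?_)
    norm_num
  rw [h5] at hj
  have h7 : 0 ≤ B * ((2:ℝ) ^ (ρ + i)) ^ (91 / 48 : ℝ) := by positivity
  nlinarith

theorem low_core (hNG : ∃ κ a C : ℝ, 0 < κ ∧ 0 < a ∧ 0 < C ∧ ∀ (p : ℝ) (n : ℕ), 1/4 ≤ p → p ≤ 1/2 →
    1 ≤ n → ∃ m : ℕ, 1 ≤ m ∧ m ≤ n ∧ H12S.Win p κ (4 * m) ∧
      (∀ k : ℕ, 1 ≤ k → k ≤ 4 * m → a * (k:ℝ)^(-(5/48) : ℝ) ≤ arm p k) ∧
      (m = n ∨ 1 ≤ C * (m * (1/2 - p)^(4/3 : ℝ))))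
    (hK0 : S_K0) (hFIN : S_FIN) (hSML : S_SML) : S_LOW := by
  intro K1 hK1
  obtain ⟨κ, a, C, hκ, ha, hC, hnear⟩ := hNG
  obtain ⟨k0, hk0⟩ := hK0
  have hk3 := hk0.1
  have hk0R : (0 : ℝ) < k0 := by exact_mod_cast (by omega : 0 < k0)
  obtain ⟨c1, ρ, T0, hc1, hfin⟩ := hFIN k0 hk0 κ a hκ ha
  set ε : ℝ := min 1 (1 / (C * K1 ^ (48 / 91 : ℝ))) with hε
  have hε0 : 0 < ε := by rw [hε]; apply lt_min one_pos; positivity
  obtain ⟨τ, hτ1, hτ2⟩ := tau_choice (20 * k0 * c1 ^ (-(48 / 91) : ℝ)) ε hε0 T0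
  obtain ⟨c, hc, hfin'⟩ := hfin τ hτ1
  set B : ℝ := c1 * (2 ^ τ : ℝ) ^ 2 with hB
  have hB0 : 0 < B := by rw [hB]; positivity
  -- bound of the small values
  set N1 : ℕ := ⌈B * ((2:ℝ) ^ ρ) ^ (91 / 48 : ℝ)⌉₊ with hN1
  refine ⟨min c ((1 / 4 : ℝ) ^ (10 * N1 + 10)), lt_min hc (by positivity), ?_⟩
  intro p N hp1 hp2 hN hNK
  have hNR : (1 : ℝ) ≤ N := by exact_mod_cast hN
  have hN0 : (0 : ℝ) < N := by linarith
  have hNpow : 0 < (N : ℝ) ^ (-(96 / 91) : ℝ) := by positivity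
  rcases lt_or_ge (N : ℝ) (B * ((2:ℝ) ^ ρ) ^ (91 / 48 : ℝ)) with hsmall | hlarge
  · have h1 : N ≤ N1 := by
      have : (N : ℝ) ≤ N1 := hsmall.le.trans (Nat.le_ceil _)
      exact_mod_cast this
    have h2 : (1 / 4 : ℝ) ^ (10 * N1 + 10) ≤ (1 / 4 : ℝ) ^ (10 * N + 10) :=
      pow_le_pow_of_le_one (by norm_num) (by norm_num) (by omega)
    have h3 : (N : ℝ) ^ (-(96 / 91) : ℝ) ≤ 1 := Real.rpow_le_one_of_one_le_of_nonpos hNR (by norm_num)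
    calc min c ((1 / 4 : ℝ) ^ (10 * N1 + 10)) * (N : ℝ) ^ (-(96 / 91) : ℝ)
        ≤ (1 / 4 : ℝ) ^ (10 * N1 + 10) * 1 := by
          apply mul_le_mul (min_le_right _ _) h3 hNpow.le (by positivity)
      _ ≤ (1 / 4 : ℝ) ^ (10 * N + 10) := by rw [mul_one]; exact h2
      _ ≤ pf p N := hSML p N hp1 hp2 hN
  · obtain ⟨j, hj, hj1, hj2⟩ := scale_choice B N hB0 ρ hlarge
    refine (mul_le_mul_of_nonneg_right (min_le_left c _) hNpow.le).trans ?_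
    have hm : ((2 ^ j : ℕ) : ℝ) = (2:ℝ) ^ j := by push_cast; rfl
    apply hfin' p j (2 ^ j) N hj rfl
    · -- the window
      set n0 : ℕ := ⌈(N : ℝ) ^ (48 / 91 : ℝ)⌉₊ with hn0
      have hn01 : 1 ≤ n0 := by
        rw [hn0, Nat.one_le_ceil_iff]; positivity
      obtain ⟨w, hw1, -, hwin, harm, hw⟩ := hnear p n0 hp1 hp2 hn01
      have hwlow : ε * (N : ℝ) ^ (48 / 91 : ℝ) ≤ w := by
        have hNp : 0 < (N : ℝ) ^ (48 / 91 : ℝ) := by positivity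
        rcases hw with hw | hw
        · rw [hw]
          have h1 : (N : ℝ) ^ (48 / 91 : ℝ) ≤ n0 := Nat.le_ceil _
          have h2 : ε ≤ 1 := min_le_left _ _
          nlinarith
        · have ht0 : 0 ≤ 1 / 2 - (p : ℝ) := by linarith
          set t : ℝ := 1 / 2 - (p : ℝ) with ht
          have h1 : t ^ (4 / 3 : ℝ) = (t ^ (91 / 36 : ℝ)) ^ (48 / 91 : ℝ) := by
            rw [← Real.rpow_mul ht0]; norm_num
          have h2 : t ^ (91 / 36 : ℝ) ≤ K1 / N := by rw [le_div_iff₀ hN0]; linarith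
          have h3 : t ^ (4 / 3 : ℝ) ≤ (K1 / N) ^ (48 / 91 : ℝ) := by
            rw [h1]; exact Real.rpow_le_rpow (by positivity) h2 (by norm_num)
          rw [Real.div_rpow hK1.le hN0.le] at h3
          have hK1p : 0 < K1 ^ (48 / 91 : ℝ) := by positivity
          have h4 : 1 ≤ C * (w * (K1 ^ (48 / 91 : ℝ) / (N : ℝ) ^ (48 / 91 : ℝ))) := by
            refine hw.trans ?_
            gcongr
          have h5 : ε ≤ 1 / (C * K1 ^ (48 / 91 : ℝ)) := min_le_right _ _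
          have h6 : (N : ℝ) ^ (48 / 91 : ℝ) ≤ C * K1 ^ (48 / 91 : ℝ) * w := by
            have : C * (w * (K1 ^ (48 / 91 : ℝ) / (N : ℝ) ^ (48 / 91 : ℝ))) =
                C * K1 ^ (48 / 91 : ℝ) * w / (N : ℝ) ^ (48 / 91 : ℝ) := by ring
            rw [this, le_div_iff₀ hNp, one_mul] at h4
            exact h4
          calc ε * (N : ℝ) ^ (48 / 91 : ℝ) ≤ 1 / (C * K1 ^ (48 / 91 : ℝ)) * (C * K1 ^ (48 / 91 : ℝ) * w) := by
                gcongr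
            _ = w := by field_simp
      -- the size of the array
      have hτR : (0:ℝ) < 2 ^ τ := by positivity
      have hmb : ((2:ℝ) ^ j) ≤ (N / B) ^ (48 / 91 : ℝ) := by
        have h1 : ((2:ℝ) ^ j) ^ (91 / 48 : ℝ) ≤ N / B := by rw [le_div_iff₀ hB0]; linarith
        have h2 := Real.rpow_le_rpow (by positivity) h1 (show (0:ℝ) ≤ 48 / 91 by norm_num)
        rw [← Real.rpow_mul (by positivity)] at h2
        norm_num at h2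
        convert h2 using 2
      have hBp : B ^ (48 / 91 : ℝ) = c1 ^ (48 / 91 : ℝ) * ((2:ℝ) ^ τ) ^ (96 / 91 : ℝ) := by
        rw [hB, Real.mul_rpow hc1.le (by positivity), ← Real.rpow_natCast ((2:ℝ) ^ τ) 2,
          ← Real.rpow_mul (by positivity)]
        norm_num
      have hM : 20 * (2:ℝ) ^ τ * (k0 * (2:ℝ) ^ j) ≤ ε * (N : ℝ) ^ (48 / 91 : ℝ) := by
        have h1 : (N / B) ^ (48 / 91 : ℝ) = (N : ℝ) ^ (48 / 91 : ℝ) *
            (c1 ^ (-(48 / 91) : ℝ) * ((2:ℝ) ^ τ) ^ (-(96 / 91) : ℝ)) := by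
          rw [Real.div_rpow hN0.le hB0.le, hBp, Real.rpow_neg hc1.le, Real.rpow_neg hτR.le]
          field_simp
        rw [h1] at hmb
        have h2 : (2:ℝ) ^ τ * ((2:ℝ) ^ τ) ^ (-(96 / 91) : ℝ) = ((2:ℝ) ^ τ) ^ (-(5 / 91) : ℝ) := by
          have : (2:ℝ) ^ τ * ((2:ℝ) ^ τ) ^ (-(96 / 91) : ℝ) = ((2:ℝ) ^ τ) ^ (1:ℝ) * ((2:ℝ) ^ τ) ^ (-(96 / 91) : ℝ) := by
            rw [Real.rpow_one]
          rw [this, ← Real.rpow_add hτR]; norm_num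
        calc 20 * (2:ℝ) ^ τ * (k0 * (2:ℝ) ^ j) ≤ 20 * (2:ℝ) ^ τ * (k0 * ((N : ℝ) ^ (48 / 91 : ℝ) *
            (c1 ^ (-(48 / 91) : ℝ) * ((2:ℝ) ^ τ) ^ (-(96 / 91) : ℝ)))) := by gcongr
          _ = (20 * k0 * c1 ^ (-(48 / 91) : ℝ) * ((2:ℝ) ^ τ * ((2:ℝ) ^ τ) ^ (-(96 / 91) : ℝ))) *
              (N : ℝ) ^ (48 / 91 : ℝ) := by ring
          _ ≤ _ := by
              rw [h2]
              exact mul_le_mul_of_nonneg_right hτ2 (by positivity)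
      have hMw : 20 * 2 ^ τ * (k0 * 2 ^ j) ≤ 4 * w := by
        have h1 : (20 * (2:ℝ) ^ τ * (k0 * (2:ℝ) ^ j)) ≤ 4 * (w : ℝ) := by
          have : (0:ℝ) ≤ w := Nat.cast_nonneg w
          linarith
        exact_mod_cast h1
      exact ⟨hp1, hp2, hwin.anti hMw, fun k h1 h2 => harm k h1 (h2.trans hMw)⟩
    · rw [hm]; exact hj1
    · rw [hm]; exact hj2

end Q75.FE
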